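import Pool.Agent.helper84.VQ.Spec4a

/-!
# Project VQ (MP_07c750_an), row SB4: recentering by a time shift
-/

set_option autoImplicit false

open scoped MatrixGroups ContDiff Topology UpperHalfPlane ComplexConjugate ENNReal
open UpperHalfPlane MeasureTheory Filter Set

namespace Pool.Agent.VQ

open Pool.Agent.RS
open Pool.Agent.VQE (nm)

theorem SB4_ent (x : SL(2, ℝ)) (α : ℝ) (h : nm x ≤ α) :
    |x.1 0 0 - 1| ≤ α ∧ |x.1 0 1| ≤ α ∧ |x.1 1 0| ≤ α ∧ |x.1 1 1 - 1| ≤ α := by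
  unfold nm at h
  rw [max_le_iff, max_le_iff, max_le_iff] at h
  exact ⟨h.1.1, h.1.2, h.2.1, h.2.2⟩

theorem SB4_mul4 (a b c d p q : ℝ) (ha : |a - 1| ≤ 1 / 50) (hb : |b| ≤ 1 / 50) (hc : |c| ≤ 4 / 25) (hd : |d - 1| ≤ 4 / 25)
    (hp : |p| ≤ 4 / 25) (_hq : |q| ≤ 4 / 25) :
    |a * d + b * c - 1| ≤ 1 / 5 ∧ |a * p + b * d| ≤ 1 / 5 := by
  rw [abs_le] at ha hb hc hd hp
  constructor
  · rw [abs_le]
    constructor <;> nlinarith
  · rw [abs_le]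
    constructor <;> nlinarith

/-- entries of a matrix times the vector field -/
theorem SB4_XX (U : ℍ → ℝ) (E : ℝ) (g : SL(2, ℝ)) (M : Matrix (Fin 2) (Fin 2) ℝ) :
    (M * XX U E g) 0 0 = M 0 0 * rho U E g / 2 - M 0 1 * kap U E g / 2 ∧ (M * XX U E g) 0 1 = M 0 0 * kap U E g / 2 - M 0 1 * rho U E g / 2 ∧
    (M * XX U E g) 1 0 = M 1 0 * rho U E g / 2 - M 1 1 * kap U E g / 2 ∧ (M * XX U E g) 1 1 = M 1 0 * kap U E g / 2 - M 1 1 * rho U E g / 2 := by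
  unfold XX A0 K0
  refine ⟨?_, ?_, ?_, ?_⟩ <;>
  · rw [Matrix.mul_apply, Fin.sum_univ_two]
    simp only [Matrix.add_apply, Matrix.smul_apply, Matrix.of_apply, Matrix.cons_val', Matrix.cons_val_zero, Matrix.cons_val_one, Matrix.cons_val_fin_one, smul_eq_mul]
    ring

theorem SB4_proof (hSH4 : SH4_stmt) : SB4_stmt := by
  intro d D hFE hd0 hd E' g g' x hE' hx hnm
  have hder : ∀ t : ℝ, ∀ i j, HasDerivAt (fun s => (g⁻¹ * D.fl E' s g').1 i j) (((g⁻¹ * D.fl E' t g').1 * XX D.U E' (D.fl E' t g')) i j) t := by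
    intro t i j
    have h1 : ∀ s, (g⁻¹ * D.fl E' s g').1 i j = ∑ k, (g⁻¹).1 i k * (D.fl E' s g').1 k j := by
      intro s
      rw [Matrix.SpecialLinearGroup.coe_mul, Matrix.mul_apply]
    have h2 : ((g⁻¹ * D.fl E' t g').1 * XX D.U E' (D.fl E' t g')) i j = ∑ k, (g⁻¹).1 i k * ((D.fl E' t g').1 * XX D.U E' (D.fl E' t g')) k j := by
      rw [Matrix.SpecialLinearGroup.coe_mul, Matrix.mul_assoc, Matrix.mul_apply]
    simp only [h1]
    rw [h2]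
    exact HasDerivAt.fun_sum fun k _ => (hFE.der E' t g' hE' k j).const_mul _
  have hX0 : g⁻¹ * D.fl E' 0 g' = x := by rw [hFE.zero, hx]
  -- bounds
  have hbd : ∀ s : ℝ, |s| ≤ 2 / 25 → |(g⁻¹ * D.fl E' s g').1 0 0 - 1| ≤ 1 / 5 ∧ |(g⁻¹ * D.fl E' s g').1 0 1| ≤ 1 / 5 ∧
      |(g⁻¹ * D.fl E' s g').1 1 0| ≤ 1 / 5 ∧ |(g⁻¹ * D.fl E' s g').1 1 1 - 1| ≤ 1 / 5 := by
    intro s hs
    have h1 := (hSH4 d D hFE hd0 hd E' s g' hE' (hs.trans (by norm_num))).1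
    have h2 : nm (g'⁻¹ * D.fl E' s g') ≤ 4 / 25 := h1.trans (by linarith)
    obtain ⟨t1, t2, t3, t4⟩ := SB4_ent _ _ h2
    obtain ⟨x1, x2, x3, x4⟩ := SB4_ent _ _ hnm
    have h3 : g⁻¹ * D.fl E' s g' = x * (g'⁻¹ * D.fl E' s g') := by
      rw [hx]
      group
    rw [h3]
    generalize g'⁻¹ * D.fl E' s g' = y at *
    have e : ∀ i j, (x * y).1 i j = x.1 i 0 * y.1 0 j + x.1 i 1 * y.1 1 j := by
      intro i j
      rw [Matrix.SpecialLinearGroup.coe_mul, Matrix.mul_apply, Fin.sum_univ_two]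
    rw [e, e, e, e]
    refine ⟨(SB4_mul4 _ _ _ _ 0 0 x1 x2 t3 t1 (by norm_num) (by norm_num)).1, (SB4_mul4 _ _ 0 _ _ 0 x1 x2 (by norm_num) t4 t2 (by norm_num)).2, ?_, ?_⟩
    · rw [add_comm]
      exact (SB4_mul4 _ _ 0 _ _ 0 x4 x3 (by norm_num) t1 t3 (by norm_num)).2
    · rw [add_comm (x.1 1 0 * y.1 0 1)]
      exact (SB4_mul4 _ _ _ _ 0 0 x4 x3 t2 t4 (by norm_num) (by norm_num)).1
  have hro : ∀ t, |rho D.U E' (D.fl E' t g') - 1| ≤ 1 / 30 := fun t => (hFE.ro E' _ hE').trans hd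
  have hka : ∀ t, |kap D.U E' (D.fl E' t g')| ≤ 1 / 30 := fun t => (hFE.ka E' _ hE').trans hd
  -- the difference of the diagonal entries
  let ψ : ℝ → ℝ := fun s => (g⁻¹ * D.fl E' s g').1 0 0 - (g⁻¹ * D.fl E' s g').1 1 1
  let ψ' : ℝ → ℝ := fun t => ((g⁻¹ * D.fl E' t g').1 * XX D.U E' (D.fl E' t g')) 0 0 - ((g⁻¹ * D.fl E' t g').1 * XX D.U E' (D.fl E' t g')) 1 1
  have hψ : ∀ t, HasDerivAt ψ (ψ' t) t := fun t => (hder t 0 0).sub (hder t 1 1)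
  have hψc : Continuous ψ := continuous_iff_continuousAt.2 fun t => (hψ t).continuousAt
  have hψ' : ∀ t : ℝ, |t| ≤ 2 / 25 → 1 / 2 ≤ ψ' t := by
    intro t ht
    obtain ⟨b1, b2, b3, b4⟩ := hbd t ht
    obtain ⟨e1, -, -, e4⟩ := SB4_XX D.U E' (D.fl E' t g') (g⁻¹ * D.fl E' t g').1
    have h5 := hro t
    have h6 := hka t
    change 1 / 2 ≤ ((g⁻¹ * D.fl E' t g').1 * XX D.U E' (D.fl E' t g')) 0 0 - ((g⁻¹ * D.fl E' t g').1 * XX D.U E' (D.fl E' t g')) 1 1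
    rw [e1, e4]
    generalize rho D.U E' (D.fl E' t g') = r at *
    generalize kap D.U E' (D.fl E' t g') = k at *
    generalize (g⁻¹ * D.fl E' t g').1 0 0 = a at *
    generalize (g⁻¹ * D.fl E' t g').1 0 1 = b at *
    generalize (g⁻¹ * D.fl E' t g').1 1 0 = c at *
    generalize (g⁻¹ * D.fl E' t g').1 1 1 = d at *
    rw [abs_le] at b1 b2 b3 b4 h5 h6
    nlinarith
  have hψ0 : ψ 0 = x.1 0 0 - x.1 1 1 := by
    change (g⁻¹ * D.fl E' 0 g').1 0 0 - (g⁻¹ * D.fl E' 0 g').1 1 1 = _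
    rw [hX0]
  have hψ0b : |ψ 0| ≤ 1 / 25 := by
    obtain ⟨x1, x2, x3, x4⟩ := SB4_ent _ _ hnm
    rw [hψ0]
    have := abs_sub (x.1 0 0 - 1) (x.1 1 1 - 1)
    have e : x.1 0 0 - x.1 1 1 = (x.1 0 0 - 1) - (x.1 1 1 - 1) := by ring
    rw [e]
    linarith
  have hzero : ∃ s : ℝ, |s| ≤ 2 * |ψ 0| ∧ ψ s = 0 := by
    by_cases h0 : ψ 0 = 0
    · exact ⟨0, by simp, h0⟩
    · have hS : 0 < |ψ 0| := abs_pos.2 h0
      obtain ⟨c1, hc1, e1⟩ := exists_hasDerivAt_eq_slope ψ ψ' (a := 0) (b := 2 * |ψ 0|) (by linarith) hψc.continuousOn fun t _ => hψ t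
      obtain ⟨c2, hc2, e2⟩ := exists_hasDerivAt_eq_slope ψ ψ' (a := -(2 * |ψ 0|)) (b := 0) (by linarith) hψc.continuousOn fun t _ => hψ t
      have g1 := hψ' c1 (by rw [abs_le]; constructor <;> linarith [hc1.1, hc1.2])
      have g2 := hψ' c2 (by rw [abs_le]; constructor <;> linarith [hc2.1, hc2.2])
      rw [e1, le_div_iff₀ (by linarith)] at g1
      rw [e2, le_div_iff₀ (by linarith)] at g2
      have n1 := neg_abs_le (ψ 0)
      have n2 := le_abs_self (ψ 0)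
      have hm : (0 : ℝ) ∈ Icc (ψ (-(2 * |ψ 0|))) (ψ (2 * |ψ 0|)) := ⟨by linarith, by linarith⟩
      obtain ⟨s, hs, hs0⟩ := intermediate_value_Icc (show -(2 * |ψ 0|) ≤ 2 * |ψ 0| by linarith) hψc.continuousOn hm
      exact ⟨s, abs_le.2 ⟨hs.1, hs.2⟩, hs0⟩
  obtain ⟨s, hs, hs0⟩ := hzero
  have hs2 : |s| ≤ 2 / 25 := by linarith
  have hmem : ∀ t : ℝ, t ∈ Icc (-(2 / 25) : ℝ) (2 / 25) → |t| ≤ 2 / 25 := fun t ht => abs_le.2 ⟨ht.1, ht.2⟩
  have hsm : s ∈ Icc (-(2 / 25) : ℝ) (2 / 25) := ⟨(abs_le.1 hs2).1, (abs_le.1 hs2).2⟩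
  have h0m : (0 : ℝ) ∈ Icc (-(2 / 25) : ℝ) (2 / 25) := ⟨by norm_num, by norm_num⟩
  refine ⟨s, g⁻¹ * D.fl E' s g', rfl, ?_, ?_, ?_, ?_, ?_⟩
  · rw [← hψ0]
    exact hs
  · exact sub_eq_zero.1 hs0
  · have := (abs_le.1 (hbd s hs2).1).1
    linarith
  · have h1 := Convex.norm_image_sub_le_of_norm_hasDerivWithin_le (C := 1) (s := Icc (-(2 / 25) : ℝ) (2 / 25)) (f := fun s => (g⁻¹ * D.fl E' s g').1 0 1)
      (fun t _ => (hder t 0 1).hasDerivWithinAt) (fun t ht => by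
        obtain ⟨b1, b2, b3, b4⟩ := hbd t (hmem t ht)
        rw [(SB4_XX D.U E' (D.fl E' t g') (g⁻¹ * D.fl E' t g').1).2.1, Real.norm_eq_abs, abs_le]
        have h5 := abs_le.1 (hro t)
        have h6 := abs_le.1 (hka t)
        rw [abs_le] at b1 b2
        constructor <;> nlinarith) (convex_Icc _ _) h0m hsm
    rw [Real.norm_eq_abs, Real.norm_eq_abs, sub_zero, one_mul, hX0] at h1
    exact h1
  · have h1 := Convex.norm_image_sub_le_of_norm_hasDerivWithin_le (C := 1) (s := Icc (-(2 / 25) : ℝ) (2 / 25)) (f := fun s => (g⁻¹ * D.fl E' s g').1 1 0)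
      (fun t _ => (hder t 1 0).hasDerivWithinAt) (fun t ht => by
        obtain ⟨b1, b2, b3, b4⟩ := hbd t (hmem t ht)
        rw [(SB4_XX D.U E' (D.fl E' t g') (g⁻¹ * D.fl E' t g').1).2.2.1, Real.norm_eq_abs, abs_le]
        have h5 := abs_le.1 (hro t)
        have h6 := abs_le.1 (hka t)
        rw [abs_le] at b3 b4
        constructor <;> nlinarith) (convex_Icc _ _) h0m hsm
    rw [Real.norm_eq_abs, Real.norm_eq_abs, sub_zero, one_mul, hX0] at h1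
    exact h1

end Pool.Agent.VQ
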