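import Pool.Agent.helper74.VQ.SpecC

/-!
# Project VQ (MP_07c750_an), row VEN: the energy estimate
-/

set_option autoImplicit false

open scoped MatrixGroups ContDiff Topology UpperHalfPlane ComplexConjugate ENNReal
open UpperHalfPlane MeasureTheory Filter Set

namespace Pool.Agent.VQ

open Pool.Agent.RS

/-- the real case of the energy estimate -/
theorem VEN_ode (N N' : ℝ → ℝ) (T ε : ℝ) (hT : 0 ≤ T) (hε : 0 < ε) (hN : ∀ s, 0 ≤ N s) (hc : ContinuousOn N (Icc 0 T))
    (hd : ∀ s ∈ Ioo 0 T, HasDerivAt N (N' s) s) (hb : ∀ s ∈ Ioo 0 T, ∀ t : ℝ, 0 < t → N' s ≤ t * ε ^ 2 + t⁻¹ * N s) :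
    Real.sqrt (N T) ≤ Real.sqrt (N 0) + T * ε := by
  rcases hT.eq_or_lt with h0 | hT0
  · rw [← h0]
    simp
  refine le_of_forall_pos_le_add fun κ hκ => ?_
  have hk : 0 < κ ^ 2 := by positivity
  have hpos : ∀ s, 0 < N s + κ ^ 2 := fun s => by have := hN s; linarith
  obtain ⟨c, hc1, hc2⟩ := exists_hasDerivAt_eq_slope (fun s => Real.sqrt (N s + κ ^ 2)) (fun s => N' s / (2 * Real.sqrt (N s + κ ^ 2))) hT0
    ((hc.add continuousOn_const).sqrt) fun s hs => by
      have h1 := ((hd s hs).add_const (κ ^ 2)).sqrt (hpos s).ne'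
      exact h1
  have hq : 0 < Real.sqrt (N c + κ ^ 2) := Real.sqrt_pos.2 (hpos c)
  have hqq : Real.sqrt (N c + κ ^ 2) * Real.sqrt (N c + κ ^ 2) = N c + κ ^ 2 := Real.mul_self_sqrt (hpos c).le
  have h1 := hb c hc1 (Real.sqrt (N c + κ ^ 2) / ε) (div_pos hq hε)
  have h2 : N' c / (2 * Real.sqrt (N c + κ ^ 2)) ≤ ε := by
    rw [div_le_iff₀ (by positivity)]
    refine h1.trans ?_
    have e1 : Real.sqrt (N c + κ ^ 2) / ε * ε ^ 2 = Real.sqrt (N c + κ ^ 2) * ε := by
      field_simp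
    have e2 : (Real.sqrt (N c + κ ^ 2) / ε)⁻¹ * N c ≤ ε * Real.sqrt (N c + κ ^ 2) := by
      rw [inv_div, div_mul_eq_mul_div, div_le_iff₀ hq, mul_assoc, hqq]
      nlinarith
    rw [e1]
    linarith
  rw [hc2, sub_zero, div_le_iff₀ hT0] at h2
  have h3 : Real.sqrt (N T) ≤ Real.sqrt (N T + κ ^ 2) := Real.sqrt_le_sqrt (by linarith)
  have h4 : Real.sqrt (N 0 + κ ^ 2) ≤ Real.sqrt (N 0) + κ := by
    rw [Real.sqrt_le_left (by positivity)]
    have := Real.sq_sqrt (hN 0)
    nlinarith [Real.sqrt_nonneg (N 0)]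
  linarith

/-- products of continuous functions are integrable on bounded sets -/
theorem VEN_int (K F : Set ℍ) (hK : IsCompact K) (f : ℍ → ℝ) (hf : Continuous f) : IntegrableOn f (F ∩ K) :=
  (hf.continuousOn.integrableOn_compact hK).mono_set inter_subset_right

theorem VEN_intC (K F : Set ℍ) (hK : IsCompact K) (f : ℍ → ℂ) (hf : Continuous f) : IntegrableOn f (F ∩ K) :=
  (hf.continuousOn.integrableOn_compact hK).mono_set inter_subset_right

theorem VEN_proof (hVGR : VGR_stmt) : VEN_stmt := by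
  intro Γ F U R T ε b w e hDm hU hR hT hε hfh hsupp hcw hcl hce hder
  have hF : MeasurableSet F := by
    rcases hDm with ⟨-, h⟩ | ⟨-, h⟩
    · exact h.meas
    · rw [h]
      exact MeasurableSet.univ
  set K : Set ℍ := Metric.closedBall I b with hKdef
  have hK : IsCompact K := isCompact_closedBall _ _
  have hKm : MeasurableSet K := hK.measurableSet
  have hmem : ∀ z, dist z I ≤ b → z ∈ K := fun z hz => hz
  have hw0 : ∀ s ∈ Icc 0 T, ∀ z ∈ F \ (F ∩ K), w s z = 0 ∧ e s z = 0 := by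
    intro s hs z hz
    by_contra h
    have h1 : w s z ≠ 0 ∨ e s z ≠ 0 := by
      by_contra h2
      push Not at h2
      exact h h2
    exact hz.2 ⟨hz.1, hmem z (hsupp s hs z hz.1 h1)⟩
  -- integrals over `F` and over `F ∩ K`
  have hsub : ∀ {E : Type} [NormedAddCommGroup E] [NormedSpace ℝ E] (f : ℍ → E), (∀ z ∈ F \ (F ∩ K), f z = 0) → ∫ z in F, f z = ∫ z in F ∩ K, f z := by
    intro E _ _ f hf
    exact setIntegral_eq_of_subset_of_forall_sdiff_eq_zero hF inter_subset_left hf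
  have hN : ∀ s ∈ Icc 0 T, nn F (w s) = ∫ z in F ∩ K, ‖w s z‖ ^ 2 := by
    intro s hs
    refine hsub _ fun z hz => ?_
    rw [(hw0 s hs z hz).1, norm_zero]
    norm_num
  -- bounds
  have hcomp : IsCompact (Icc (0 : ℝ) T ×ˢ K) := isCompact_Icc.prod hK
  obtain ⟨Bw, hBw⟩ := hcomp.exists_bound_of_continuousOn (hcw.mono (prod_mono_right (subset_univ K)))
  obtain ⟨Bl, hBl⟩ := hcomp.exists_bound_of_continuousOn (hcl.mono (prod_mono_right (subset_univ K)))
  obtain ⟨Be, hBe⟩ := hcomp.exists_bound_of_continuousOn (hce.mono (prod_mono_right (subset_univ K)))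
  have hUc : Continuous U := hU.inv.1
  -- the derivative
  set G : ℝ → ℍ → ℝ := fun s z => 2 * inner ℝ (w s z) (-(Complex.I * Hop U R (w s) z) + e s z) with hG
  have hGd : ∀ s ∈ Icc 0 T, ∀ z, HasDerivAt (fun r => ‖w r z‖ ^ 2) (G s z) s := fun s hs z => (hder s hs z).norm_sq
  have hR0 : 0 < R := by linarith
  have hHb : ∀ s ∈ Icc 0 T, ∀ z ∈ K, ‖Hop U R (w s) z‖ ≤ (2 * R)⁻¹ * (Bl + R ^ 2 * 2 * Bw) := by
    intro s hs z hz
    unfold Hop
    rw [norm_mul, Complex.norm_real, Real.norm_eq_abs, abs_of_pos (by positivity)]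
    refine mul_le_mul_of_nonneg_left ?_ (by positivity)
    refine (norm_sub_le _ _).trans (add_le_add (hBl (s, z) ⟨hs, hz⟩) ?_)
    rw [norm_mul, Complex.norm_real, Real.norm_eq_abs, abs_of_nonneg (by have := (hU.bd z).1; positivity)]
    have h1 := hBw (s, z) ⟨hs, hz⟩
    have h2 := (hU.bd z).2
    have h3 := (hU.bd z).1
    refine mul_le_mul (mul_le_mul_of_nonneg_left h2 (by positivity)) h1 (norm_nonneg _) (by positivity)
  have hGb : ∀ s ∈ Icc 0 T, ∀ z ∈ K, ‖G s z‖ ≤ 2 * (Bw * ((2 * R)⁻¹ * (Bl + R ^ 2 * 2 * Bw) + Be)) := by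
    intro s hs z hz
    rw [hG]
    simp only []
    rw [norm_mul, Real.norm_eq_abs 2, abs_of_pos (by norm_num : (0 : ℝ) < 2)]
    refine mul_le_mul_of_nonneg_left ?_ (by norm_num)
    refine (norm_inner_le_norm _ _).trans ?_
    have h1 := hBw (s, z) ⟨hs, hz⟩
    refine mul_le_mul h1 ?_ (norm_nonneg _) ((norm_nonneg _).trans h1)
    refine (norm_add_le _ _).trans (add_le_add ?_ (hBe (s, z) ⟨hs, hz⟩))
    rw [norm_neg, norm_mul, Complex.norm_I, one_mul]
    exact hHb s hs z hz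
  -- continuity in `z`
  have hlc : ∀ s ∈ Icc 0 T, Continuous fun z => QU.lap (w s) z := by
    intro s hs
    have h1 : ContinuousOn ((fun x : ℝ × ℍ => QU.lap (w x.1) x.2) ∘ fun z : ℍ => (s, z)) univ :=
      hcl.comp (Continuous.continuousOn (by fun_prop)) fun z _ => ⟨hs, mem_univ _⟩
    exact continuousOn_univ.1 h1
  have hwc : ∀ s ∈ Icc 0 T, Continuous (w s) := fun s hs => (hfh s hs).1.cont
  have hec : ∀ s ∈ Icc 0 T, Continuous (e s) := fun s hs => (hfh s hs).2.2.1.cont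
  have hHc : ∀ s ∈ Icc 0 T, Continuous fun z => Hop U R (w s) z := by
    intro s hs
    unfold Hop
    have h1 := hlc s hs
    have h2 := hwc s hs
    fun_prop
  have hGc : ∀ s ∈ Icc 0 T, Continuous (G s) := by
    intro s hs
    have h1 := hHc s hs
    have h2 := hwc s hs
    have h3 := hec s hs
    rw [hG]
    exact continuous_const.mul (h2.inner ((continuous_const.mul h1).neg.add h3))
  have : IsFiniteMeasure ((volume : Measure ℍ).restrict (F ∩ K)) := by
    refine ⟨?_⟩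
    rw [Measure.restrict_apply_univ]
    exact (measure_mono inter_subset_right).trans_lt hK.measure_lt_top
  have hae : ∀ {P : ℍ → Prop}, (∀ z ∈ K, P z) → ∀ᵐ z ∂((volume : Measure ℍ).restrict (F ∩ K)), P z := by
    intro P hP
    exact (ae_restrict_iff' (hF.inter hKm)).2 (Eventually.of_forall fun z hz => hP z hz.2)
  -- the function `N`
  set N : ℝ → ℝ := fun s => ∫ z in F ∩ K, ‖w s z‖ ^ 2 with hNdef
  have hN0 : ∀ s, 0 ≤ N s := fun s => integral_nonneg fun z => by positivity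
  have hNc : ContinuousOn N (Icc 0 T) := by
    refine continuousOn_of_dominated (bound := fun _ => Bw ^ 2) ?_ ?_ (integrable_const _) ?_
    · intro s hs
      exact ((hwc s hs).norm.pow 2).aestronglyMeasurable
    · intro s hs
      refine hae fun z hz => ?_
      rw [norm_pow, norm_norm]
      exact pow_le_pow_left₀ (norm_nonneg _) (hBw (s, z) ⟨hs, hz⟩) 2
    · refine hae fun z hz => ?_
      exact fun s hs => (hGd s hs z).continuousAt.continuousWithinAt
  have hNd : ∀ s ∈ Ioo 0 T, HasDerivAt N (∫ z in F ∩ K, G s z) s := by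
    intro s hs
    have hsI : s ∈ Icc 0 T := Ioo_subset_Icc_self hs
    refine (hasDerivAt_integral_of_dominated_loc_of_deriv_le (s := Ioo 0 T) (F' := G) (bound := fun _ => 2 * (Bw * ((2 * R)⁻¹ * (Bl + R ^ 2 * 2 * Bw) + Be)))
      (isOpen_Ioo.mem_nhds hs) ?_ ?_ ?_ ?_ (integrable_const _) ?_).2
    · filter_upwards [isOpen_Ioo.mem_nhds hs] with r hr
      exact ((hwc r (Ioo_subset_Icc_self hr)).norm.pow 2).aestronglyMeasurable
    · exact VEN_int K F hK _ ((hwc s hsI).norm.pow 2)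
    · exact (hGc s hsI).aestronglyMeasurable
    · exact hae fun z hz r hr => hGb r (Ioo_subset_Icc_self hr) z hz
    · exact hae fun z hz r hr => hGd r (Ioo_subset_Icc_self hr) z
  -- the derivative is bounded
  have hNb : ∀ s ∈ Ioo 0 T, ∀ ε' : ℝ, ε ≤ ε' → ∀ t : ℝ, 0 < t → ∫ z in F ∩ K, G s z ≤ t * ε' ^ 2 + t⁻¹ * N s := by
    intro s hs' ε' hε' t ht
    have hs : s ∈ Icc 0 T := Ioo_subset_Icc_self hs'
    obtain ⟨f1, f2, f3, f4⟩ := hfh s hs
    have c1 := hwc s hs
    have c2 := hlc s hs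
    have c3 := hec s hs
    have c4 := hHc s hs
    -- `L` is real
    have hL : ∫ z in F ∩ K, QU.lap (w s) z * conj (w s z) = ∫ z in F ∩ K, w s z * conj (QU.lap (w s) z) := by
      rw [← hsub _ fun z hz => by rw [(hw0 s hs z hz).1, map_zero, mul_zero], ← hsub _ fun z hz => by rw [(hw0 s hs z hz).1, zero_mul]]
      exact hVGR Γ F (w s) (w s) hDm f1 f1 f2 f2
    have hLr : (∫ z in F ∩ K, QU.lap (w s) z * conj (w s z)).im = 0 := by
      rw [← Complex.conj_eq_iff_im, ← integral_conj, hL]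
      refine integral_congr_ae (Eventually.of_forall fun z => ?_)
      simp only [map_mul, Complex.conj_conj]
      ring
    have hHr : (∫ z in F ∩ K, Hop U R (w s) z * conj (w s z)).im = 0 := by
      have e1 : ∀ z, Hop U R (w s) z * conj (w s z) = (((2 * R)⁻¹ : ℝ) : ℂ) * (QU.lap (w s) z * conj (w s z)) - ((((2 * R)⁻¹ * (R ^ 2 * U z * ‖w s z‖ ^ 2) : ℝ)) : ℂ) := by
        intro z
        unfold Hop
        have h1 : w s z * conj (w s z) = ((‖w s z‖ ^ 2 : ℝ) : ℂ) := by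
          rw [Complex.mul_conj, Complex.normSq_eq_norm_sq]
        push_cast at h1 ⊢
        linear_combination (-(2 * (R : ℂ))⁻¹ * (R : ℂ) ^ 2 * (U z : ℂ)) * h1
      simp only [e1]
      have e0 : ∫ z in F ∩ K, ((((2 * R)⁻¹ * (R ^ 2 * U z * ‖w s z‖ ^ 2) : ℝ)) : ℂ) = ((∫ z in F ∩ K, (2 * R)⁻¹ * (R ^ 2 * U z * ‖w s z‖ ^ 2) : ℝ) : ℂ) := integral_ofReal
      rw [integral_sub (VEN_intC K F hK _ (by fun_prop)) (VEN_intC K F hK _ (by fun_prop)), integral_const_mul, e0, Complex.sub_im, Complex.ofReal_im, sub_zero,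
        Complex.im_ofReal_mul, hLr, mul_zero]
    have e2 : ∀ z, G s z = 2 * RCLike.im (Hop U R (w s) z * conj (w s z)) + 2 * RCLike.re (e s z * conj (w s z)) := by
      intro z
      rw [hG]
      simp only [Complex.inner, RCLike.im_eq_complex_im, RCLike.re_eq_complex_re, Complex.mul_re, Complex.mul_im, Complex.add_re, Complex.add_im, Complex.neg_re, Complex.neg_im,
        Complex.I_re, Complex.I_im, Complex.conj_re, Complex.conj_im]
      ring
    have i1 : IntegrableOn (fun z => Hop U R (w s) z * conj (w s z)) (F ∩ K) := VEN_intC K F hK _ (by fun_prop)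
    have i2 : IntegrableOn (fun z => e s z * conj (w s z)) (F ∩ K) := VEN_intC K F hK _ (by fun_prop)
    have i3 : IntegrableOn (fun z => t * ‖e s z‖ ^ 2) (F ∩ K) := VEN_int K F hK _ (by fun_prop)
    have i4 : IntegrableOn (fun z => t⁻¹ * ‖w s z‖ ^ 2) (F ∩ K) := VEN_int K F hK _ (by fun_prop)
    have e3 : ∫ z in F ∩ K, G s z = 2 * ∫ z in F ∩ K, RCLike.re (e s z * conj (w s z)) := by
      simp only [e2]
      rw [integral_add (i1.im.const_mul 2) (i2.re.const_mul 2), integral_const_mul, integral_const_mul, integral_im i1, RCLike.im_eq_complex_im, hHr, mul_zero, zero_add]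
    rw [e3, ← integral_const_mul]
    have e4 : ∫ z in F ∩ K, ‖e s z‖ ^ 2 ≤ ε ^ 2 := by
      have h1 : nn F (e s) = ∫ z in F ∩ K, ‖e s z‖ ^ 2 := hsub _ fun z hz => by
        rw [(hw0 s hs z hz).2, norm_zero]
        norm_num
      rw [← h1]
      exact f4
    have e5 : ∫ z in F ∩ K, 2 * RCLike.re (e s z * conj (w s z)) ≤ ∫ z in F ∩ K, (t * ‖e s z‖ ^ 2 + t⁻¹ * ‖w s z‖ ^ 2) := by
      refine integral_mono (i2.re.const_mul 2) (i3.add i4) fun z => ?_
      have h1 : RCLike.re (e s z * conj (w s z)) ≤ ‖e s z‖ * ‖w s z‖ := by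
        refine (RCLike.re_le_norm _).trans ?_
        rw [norm_mul, RCLike.norm_conj]
      have h2 : t * t⁻¹ = 1 := mul_inv_cancel₀ ht.ne'
      have h3 : 0 < t⁻¹ := inv_pos.2 ht
      have h4 : 0 ≤ t⁻¹ * (t * ‖e s z‖ - ‖w s z‖) ^ 2 := by positivity
      have h5 : t⁻¹ * (t * ‖e s z‖ - ‖w s z‖) ^ 2 = t * ‖e s z‖ ^ 2 + t⁻¹ * ‖w s z‖ ^ 2 - 2 * (‖e s z‖ * ‖w s z‖) := by
        field_simp
        ring
      change 2 * RCLike.re (e s z * conj (w s z)) ≤ t * ‖e s z‖ ^ 2 + t⁻¹ * ‖w s z‖ ^ 2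
      linarith
    refine e5.trans ?_
    rw [integral_add i3 i4, integral_const_mul, integral_const_mul]
    have e6 : ε ^ 2 ≤ ε' ^ 2 := pow_le_pow_left₀ hε hε' 2
    have e7 : t * ∫ z in F ∩ K, ‖e s z‖ ^ 2 ≤ t * ε' ^ 2 := mul_le_mul_of_nonneg_left (e4.trans e6) ht.le
    linarith
  have key : ∀ η : ℝ, 0 < η → Real.sqrt (N T) ≤ Real.sqrt (N 0) + T * (ε + η) := fun η hη =>
    VEN_ode N (fun s => ∫ z in F ∩ K, G s z) T (ε + η) hT (by linarith) hN0 hNc hNd fun s hs t ht => hNb s hs (ε + η) (by linarith) t ht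
  rw [hN T ⟨hT, le_rfl⟩, hN 0 ⟨le_rfl, hT⟩]
  refine le_of_forall_pos_le_add fun κ hκ => ?_
  have h1 := key (κ / (T + 1)) (by positivity)
  have h2 : T * (κ / (T + 1)) ≤ κ := by
    rw [mul_div_assoc', div_le_iff₀ (by positivity)]
    nlinarith
  calc _ ≤ _ := h1
    _ ≤ _ := by
      rw [mul_add]
      linarith

end Pool.Agent.VQ
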